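import Mathlib

/-!
Constant depth (MP_381749_lc), row C: numbers from a continued fraction.
-/

set_option autoImplicit false

namespace Pool.Helper98.CD

/-- the vectors `(B, A)`; index `j` is `i + 1` -/
def cf (σ : ℕ) : ℕ → ℕ × ℕ
  | 0 => (0, 1)
  | 1 => (1, 1)
  | (j + 2) => (8 * σ * ((cf σ j).1 + (cf σ j).2) * (cf σ (j + 1)).1 + (cf σ j).1,
      8 * σ * ((cf σ j).1 + (cf σ j).2) * (cf σ (j + 1)).2 + (cf σ j).2)

/-- the sum of the entries -/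
def cs (σ j : ℕ) : ℕ := (cf σ j).1 + (cf σ j).2

variable {σ : ℕ}

theorem cf_fst (j : ℕ) : (cf σ (j + 2)).1 = 8 * σ * cs σ j * (cf σ (j + 1)).1 + (cf σ j).1 := by
  rw [cf, cs]

theorem cf_snd (j : ℕ) : (cf σ (j + 2)).2 = 8 * σ * cs σ j * (cf σ (j + 1)).2 + (cf σ j).2 := by
  rw [cf, cs]

theorem cs_succ (j : ℕ) : cs σ (j + 2) = 8 * σ * cs σ j * cs σ (j + 1) + cs σ j := by
  rw [cs, cf_fst, cf_snd, cs, cs]
  ring

theorem cs_pos (j : ℕ) : 1 ≤ cs σ j := by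
  have h : 1 ≤ cs σ j ∧ 1 ≤ cs σ (j + 1) := by
    induction j with
    | zero => exact ⟨by simp [cs, cf], by simp [cs, cf]⟩
    | succ j ih =>
      refine ⟨ih.2, ?_⟩
      rw [cs_succ]
      have := ih.1
      omega
  exact h.1

theorem fst_le_snd (j : ℕ) : (cf σ j).1 ≤ (cf σ j).2 := by
  have h : (cf σ j).1 ≤ (cf σ j).2 ∧ (cf σ (j + 1)).1 ≤ (cf σ (j + 1)).2 := by
    induction j with
    | zero => exact ⟨by simp [cf], by simp [cf]⟩
    | succ j ih =>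
      refine ⟨ih.2, ?_⟩
      rw [cf_fst, cf_snd]
      exact Nat.add_le_add (Nat.mul_le_mul_left _ ih.2) ih.1
  exact h.1

theorem fst_pos (hσ : 1 ≤ σ) (j : ℕ) : 1 ≤ (cf σ (j + 1)).1 := by
  induction j with
  | zero => simp [cf]
  | succ j ih =>
    rw [cf_fst]
    have h1 : 1 ≤ 8 * σ * cs σ j * (cf σ (j + 1)).1 := by
      have := cs_pos (σ := σ) j
      exact Nat.mul_pos (Nat.mul_pos (by omega) this) ih
    omega

theorem snd_le (hσ : 1 ≤ σ) (j : ℕ) : (cf σ (j + 1)).2 ≤ 2 * (cf σ (j + 1)).1 := by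
  have h : (cf σ (j + 1)).2 ≤ 2 * (cf σ (j + 1)).1 ∧
      (cf σ (j + 2)).2 ≤ 2 * (cf σ (j + 2)).1 := by
    induction j with
    | zero =>
      refine ⟨by simp [cf], ?_⟩
      rw [cf_fst, cf_snd]
      have h0 : cs σ 0 = 1 := by simp [cs, cf]
      rw [h0]
      simp only [cf]
      omega
    | succ j ih =>
      refine ⟨ih.2, ?_⟩
      rw [cf_fst (j + 1), cf_snd (j + 1)]
      calc 8 * σ * cs σ (j + 1) * (cf σ (j + 1 + 1)).2 + (cf σ (j + 1)).2 ≤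
          8 * σ * cs σ (j + 1) * (2 * (cf σ (j + 1 + 1)).1) + 2 * (cf σ (j + 1)).1 :=
            Nat.add_le_add (Nat.mul_le_mul_left _ ih.2) ih.1
        _ = _ := by ring
  exact h.1

theorem fst_mono (hσ : 1 ≤ σ) (j : ℕ) : (cf σ j).1 ≤ (cf σ (j + 1)).1 := by
  cases j with
  | zero => simp [cf]
  | succ j =>
    rw [cf_fst]
    have h1 : (cf σ (j + 1)).1 ≤ 8 * σ * cs σ j * (cf σ (j + 1)).1 := by
      have := cs_pos (σ := σ) j
      exact Nat.le_mul_of_pos_left _ (Nat.mul_pos (by omega) this)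
    omega

theorem fst_step (j : ℕ) : 8 * σ * cs σ j * (cf σ (j + 1)).1 ≤ (cf σ (j + 2)).1 := by
  rw [cf_fst]
  omega

/-- the determinant is `1` or `-1` -/
theorem det_sq (j : ℕ) :
    (((cf σ (j + 1)).2 : ℤ) * (cf σ j).1 - (cf σ (j + 1)).1 * (cf σ j).2) ^ 2 = 1 := by
  induction j with
  | zero => simp [cf]
  | succ j ih =>
    rw [cf_fst, cf_snd]
    push_cast
    rw [← ih]
    ring

/-- the last vector in terms of two earlier ones -/
theorem exists_coord (hσ : 1 ≤ σ) (n : ℕ) : ∀ d j : ℕ, j + 1 + d = n → ∃ x y : ℕ, 1 ≤ x ∧ y ≤ x ∧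
    (cf σ n).1 = x * (cf σ (j + 1)).1 + y * (cf σ j).1 ∧
    (cf σ n).2 = x * (cf σ (j + 1)).2 + y * (cf σ j).2 := by
  intro d
  induction d with
  | zero =>
    intro j hj
    exact ⟨1, 0, le_rfl, by omega, by rw [← hj]; simp, by rw [← hj]; simp⟩
  | succ d ih =>
    intro j hj
    obtain ⟨x, y, hx, hy, h1, h2⟩ := ih (j + 1) (by omega)
    refine ⟨x * (8 * σ * cs σ j) + y, x, ?_, ?_, ?_, ?_⟩
    · have := cs_pos (σ := σ) j
      have h3 : 1 ≤ x * (8 * σ * cs σ j) := Nat.mul_pos hx (Nat.mul_pos (by omega) this)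
      omega
    · have := cs_pos (σ := σ) j
      have h3 : x ≤ x * (8 * σ * cs σ j) := Nat.le_mul_of_pos_right _ (Nat.mul_pos (by omega) this)
      omega
    · rw [h1, show j + 1 + 1 = j + 2 from rfl, cf_fst]
      ring
    · rw [h2, show j + 1 + 1 = j + 2 from rfl, cf_snd]
      ring

/-- imbalance -/
theorem imbalance (hσ : 1 ≤ σ) (n j : ℕ) (hj : j + 1 ≤ n) (b e : ℕ)
    (hbe : 2 * (b + e) ≤ cs σ (j + 1)) :
    ((cf σ n).1 : ℤ) * (b + e) ≤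
      2 * (cf σ (j + 1)).1 * cs σ j * |((cf σ n).2 : ℤ) * b - (cf σ n).1 * e| := by
  obtain ⟨x, y, hx, hy, h1, h2⟩ := exists_coord hσ n (n - (j + 1)) j (by omega)
  have hdet := det_sq (σ := σ) j
  have hmono := fst_mono hσ j
  obtain ⟨B1, hB1⟩ : ∃ B1 : ℤ, B1 = ((cf σ (j + 1)).1 : ℤ) := ⟨_, rfl⟩
  obtain ⟨A1, hA1⟩ : ∃ A1 : ℤ, A1 = ((cf σ (j + 1)).2 : ℤ) := ⟨_, rfl⟩
  obtain ⟨B0, hB0⟩ : ∃ B0 : ℤ, B0 = ((cf σ j).1 : ℤ) := ⟨_, rfl⟩
  obtain ⟨A0, hA0⟩ : ∃ A0 : ℤ, A0 = ((cf σ j).2 : ℤ) := ⟨_, rfl⟩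
  have hS0 : (cs σ j : ℤ) = B0 + A0 := by rw [hB0, hA0, cs]; push_cast; ring
  have hS1 : (cs σ (j + 1) : ℤ) = B1 + A1 := by rw [hB1, hA1, cs]; push_cast; ring
  have hS0pos : (0 : ℤ) < B0 + A0 := by
    rw [← hS0]
    exact_mod_cast cs_pos (σ := σ) j
  rw [← hB1, ← hA1, ← hB0, ← hA0] at hdet
  obtain ⟨D, hD⟩ : ∃ D : ℤ, D = A1 * B0 - B1 * A0 := ⟨_, rfl⟩
  rw [← hD] at hdet
  have hbe' : 2 * ((b : ℤ) + e) ≤ B1 + A1 := by
    rw [← hS1]
    exact_mod_cast hbe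
  have hmono' : B0 ≤ B1 := by rw [hB0, hB1]; exact_mod_cast hmono
  have hB0n : 0 ≤ B0 := by rw [hB0]; positivity
  have hB1n : 0 ≤ B1 := by rw [hB1]; positivity
  have hx' : (1 : ℤ) ≤ x := by exact_mod_cast hx
  have hy' : (y : ℤ) ≤ x := by exact_mod_cast hy
  have hy0 : (0 : ℤ) ≤ y := by positivity
  have hbn : (0 : ℤ) ≤ (b : ℤ) + e := by positivity
  -- coordinates
  obtain ⟨ξ, hξ⟩ : ∃ ξ : ℤ, ξ = D * (A1 * b - B1 * e) := ⟨_, rfl⟩
  obtain ⟨η, hη⟩ : ∃ η : ℤ, η = -(D * (A0 * b - B0 * e)) := ⟨_, rfl⟩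
  have hsum : (b : ℤ) + e = ξ * (B0 + A0) + η * (B1 + A1) := by
    have : ξ * (B0 + A0) + η * (B1 + A1) = D * (A1 * B0 - B1 * A0) * (b + e) := by
      rw [hξ, hη]; ring
    rw [this, ← hD, ← sq, hdet, one_mul]
  have hval : ((cf σ n).2 : ℤ) * b - (cf σ n).1 * e = D * (x * ξ - y * η) := by
    have h3 : D * (x * ξ - y * η) = D ^ 2 * (x * (A1 * b - B1 * e) + y * (A0 * b - B0 * e)) := by
      rw [hξ, hη]; ring
    rw [h3, hdet, one_mul, h1, h2]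
    push_cast
    rw [← hB1, ← hA1, ← hB0, ← hA0]
    ring
  have hDabs : |D| = 1 := by
    have := sq_abs D
    rw [hdet] at this
    have h0 := abs_nonneg D
    nlinarith
  have habs : |((cf σ n).2 : ℤ) * b - (cf σ n).1 * e| = |x * ξ - y * η| := by
    rw [hval, abs_mul, hDabs, one_mul]
  -- the three cases
  have hkey : (x : ℤ) * (b + e) ≤ (B0 + A0) * |x * ξ - y * η| := by
    rcases lt_trichotomy η 0 with hneg | hzero | hpos
    · have h4 : (b : ℤ) + e ≤ ξ * (B0 + A0) := by nlinarith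
      have h5 : 0 ≤ ξ := by
        by_contra hcon
        push Not at hcon
        nlinarith
      have h6 : x * ξ ≤ |x * ξ - y * η| := by
        refine le_trans ?_ (le_abs_self _)
        nlinarith
      calc (x : ℤ) * (b + e) ≤ x * (ξ * (B0 + A0)) := mul_le_mul_of_nonneg_left h4 (by omega)
        _ = (B0 + A0) * (x * ξ) := by ring
        _ ≤ _ := mul_le_mul_of_nonneg_left h6 hS0pos.le
    · rw [hzero] at hsum ⊢
      rw [zero_mul, add_zero] at hsum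
      rw [mul_zero, sub_zero, hsum]
      calc (x : ℤ) * (ξ * (B0 + A0)) = (B0 + A0) * (x * ξ) := by ring
        _ ≤ _ := mul_le_mul_of_nonneg_left (le_abs_self _) hS0pos.le
    · have h4 : (b : ℤ) + e ≤ -ξ * (B0 + A0) := by nlinarith
      have h5 : 0 ≤ -ξ := by
        by_contra hcon
        push Not at hcon
        nlinarith
      have h6 : x * (-ξ) ≤ |x * ξ - y * η| := by
        refine le_trans ?_ (neg_le_abs _)
        nlinarith
      calc (x : ℤ) * (b + e) ≤ x * (-ξ * (B0 + A0)) := mul_le_mul_of_nonneg_left h4 (by omega)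
        _ = (B0 + A0) * (x * (-ξ)) := by ring
        _ ≤ _ := mul_le_mul_of_nonneg_left h6 hS0pos.le
  have hBn : ((cf σ n).1 : ℤ) ≤ 2 * B1 * x := by
    rw [h1]
    push_cast
    rw [← hB1, ← hB0]
    nlinarith
  rw [habs, hS0, ← hB1]
  calc ((cf σ n).1 : ℤ) * (b + e) ≤ (2 * B1 * x) * (b + e) := mul_le_mul_of_nonneg_right hBn hbn
    _ = 2 * B1 * (x * (b + e)) := by ring
    _ ≤ 2 * B1 * ((B0 + A0) * |x * ξ - y * η|) :=
        mul_le_mul_of_nonneg_left hkey (by positivity)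
    _ = 2 * B1 * (B0 + A0) * |x * ξ - y * η| := by ring

theorem fib_rec (j : ℕ) : Nat.fib (j + 3) - 1 = (Nat.fib (j + 1) - 1) + (Nat.fib (j + 2) - 1) + 1 := by
  have h1 : Nat.fib (j + 3) = Nat.fib (j + 1) + Nat.fib (j + 2) := by
    rw [show j + 3 = (j + 1) + 2 by ring, Nat.fib_add_two]
  have h2 : 0 < Nat.fib (j + 1) := Nat.fib_pos.mpr (by omega)
  have h3 : 0 < Nat.fib (j + 2) := Nat.fib_pos.mpr (by omega)
  omega

theorem cs_le (hσ : 1 ≤ σ) (j : ℕ) : cs σ j ≤ 2 * (18 * σ) ^ (Nat.fib (j + 1) - 1) := by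
  have h : cs σ j ≤ 2 * (18 * σ) ^ (Nat.fib (j + 1) - 1) ∧
      cs σ (j + 1) ≤ 2 * (18 * σ) ^ (Nat.fib (j + 2) - 1) := by
    induction j with
    | zero => exact ⟨by simp [cs, cf], by simp [cs, cf]⟩
    | succ j ih =>
      refine ⟨ih.2, ?_⟩
      rw [show j + 1 + 1 = j + 2 from rfl, show j + 1 + 2 = j + 3 from rfl, fib_rec, cs_succ]
      have h1 : cs σ j ≤ σ * cs σ j * cs σ (j + 1) := by
        calc cs σ j = 1 * cs σ j * 1 := by ring
          _ ≤ σ * cs σ j * cs σ (j + 1) :=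
            Nat.mul_le_mul (Nat.mul_le_mul_right _ hσ) (cs_pos (j + 1))
      calc 8 * σ * cs σ j * cs σ (j + 1) + cs σ j ≤
          8 * σ * cs σ j * cs σ (j + 1) + σ * cs σ j * cs σ (j + 1) := Nat.add_le_add_left h1 _
        _ = 9 * σ * (cs σ j * cs σ (j + 1)) := by ring
        _ ≤ 9 * σ * ((2 * (18 * σ) ^ (Nat.fib (j + 1) - 1)) *
            (2 * (18 * σ) ^ (Nat.fib (j + 2) - 1))) :=
            Nat.mul_le_mul_left _ (Nat.mul_le_mul ih.1 ih.2)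
        _ = 2 * (18 * σ) ^ ((Nat.fib (j + 1) - 1) + (Nat.fib (j + 2) - 1) + 1) := by
            rw [pow_succ, pow_add]; ring
  exact h.1

theorem le_cs (j : ℕ) : (8 * σ) ^ (Nat.fib (j + 1) - 1) ≤ cs σ j := by
  have h : (8 * σ) ^ (Nat.fib (j + 1) - 1) ≤ cs σ j ∧
      (8 * σ) ^ (Nat.fib (j + 2) - 1) ≤ cs σ (j + 1) := by
    induction j with
    | zero => exact ⟨by simp [cs, cf], by simp [cs, cf]⟩
    | succ j ih =>
      refine ⟨ih.2, ?_⟩
      rw [show j + 1 + 1 = j + 2 from rfl, show j + 1 + 2 = j + 3 from rfl, fib_rec, cs_succ]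
      calc (8 * σ) ^ ((Nat.fib (j + 1) - 1) + (Nat.fib (j + 2) - 1) + 1) =
          8 * σ * ((8 * σ) ^ (Nat.fib (j + 1) - 1) * (8 * σ) ^ (Nat.fib (j + 2) - 1)) := by
            rw [pow_succ, pow_add]; ring
        _ ≤ 8 * σ * (cs σ j * cs σ (j + 1)) :=
            Nat.mul_le_mul_left _ (Nat.mul_le_mul ih.1 ih.2)
        _ = 8 * σ * cs σ j * cs σ (j + 1) := by ring
        _ ≤ _ := Nat.le_add_right _ _
  exact h.1

/-- ROW C -/
theorem cf_numbers (L σ : ℕ) (hL : 1 ≤ L) (hσ : 1 ≤ σ) :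
    ∃ (A B s : ℕ) (c : ℕ → ℝ) (τ : ℕ → ℕ), 1 ≤ s ∧ 1 ≤ B ∧ B ≤ A ∧ A ≤ 2 * B ∧
      (∀ i, 1 ≤ i → i ≤ L → ∀ b e : ℕ, 1 ≤ b + e → b + e ≤ τ i →
        2 * c i * (b + e) ≤ |(A : ℝ) * b - B * e|) ∧
      (σ : ℝ) * B ≤ τ 1 * (B / 4) ∧ c 1 ≤ (B : ℝ) / 8 ∧
      (∀ i, 1 ≤ i → i + 1 ≤ L → (σ : ℝ) * B ≤ τ (i + 1) * (c i / 2) ∧ c (i + 1) ≤ c i / 4) ∧
      c L = 1 / (4 * s) ∧
      s * A ≤ 4 * (18 * σ) ^ (Nat.fib (L + 3) - 2) ∧
      (8 * σ) ^ (Nat.fib (L + 3) - 2) ≤ 3 * (s * B) := by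
  have hfib : Nat.fib (L + 3) - 2 = (Nat.fib (L + 1) - 1) + (Nat.fib (L + 2) - 1) := by
    have := fib_rec L
    have h2 : 0 < Nat.fib (L + 1) := Nat.fib_pos.mpr (by omega)
    have h3 : 0 < Nat.fib (L + 2) := Nat.fib_pos.mpr (by omega)
    omega
  have hBpos : ∀ j, (0 : ℝ) < ((cf σ (j + 1)).1 : ℝ) := fun j => by
    exact_mod_cast fst_pos hσ j
  have hSpos : ∀ j, (0 : ℝ) < (cs σ j : ℝ) := fun j => by
    exact_mod_cast cs_pos (σ := σ) j
  have hσ' : (1 : ℝ) ≤ σ := by exact_mod_cast hσ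
  refine ⟨(cf σ (L + 1)).2, (cf σ (L + 1)).1, cs σ L,
    fun i => ((cf σ (L + 1)).1 : ℝ) / (4 * (cf σ (i + 1)).1 * cs σ i),
    fun i => cs σ (i + 1) / 2, cs_pos L, fst_pos hσ L, fst_le_snd _, snd_le hσ L, ?_, ?_, ?_, ?_,
    ?_, ?_, ?_⟩
  · intro i hi hiL b e _ hbe
    have hbe' : b + e ≤ cs σ (i + 1) / 2 := hbe
    have h1 := imbalance hσ (L + 1) i (by omega) b e (by omega)
    have h2 : ((cf σ (L + 1)).1 : ℝ) * (b + e) ≤ 2 * (cf σ (i + 1)).1 * cs σ i *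
        |((cf σ (L + 1)).2 : ℝ) * b - (cf σ (L + 1)).1 * e| := by exact_mod_cast h1
    have h3 := hBpos i
    have h4 := hSpos i
    have h5 : 2 * (((cf σ (L + 1)).1 : ℝ) / (4 * (cf σ (i + 1)).1 * cs σ i)) * (b + e) =
        (((cf σ (L + 1)).1 : ℝ) * (b + e)) / (2 * (cf σ (i + 1)).1 * cs σ i) := by
      field_simp
      ring
    rw [h5, div_le_iff₀ (by positivity)]
    linarith
  · have h0 : cs σ 2 = 16 * σ + 1 := by
      rw [cs_succ]
      simp [cs, cf]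
      ring
    have h1 : (8 * σ : ℕ) = cs σ (1 + 1) / 2 := by
      rw [show 1 + 1 = 2 from rfl, h0]
      omega
    change (σ : ℝ) * ((cf σ (L + 1)).1 : ℝ) ≤ ((cs σ (1 + 1) / 2 : ℕ) : ℝ) *
      (((cf σ (L + 1)).1 : ℝ) / 4)
    rw [← h1]
    push_cast
    have := hBpos L
    nlinarith
  · change ((cf σ (L + 1)).1 : ℝ) / (4 * (cf σ (1 + 1)).1 * cs σ 1) ≤ _
    have h0 : (cs σ 1 : ℝ) = 2 := by
      have : cs σ 1 = 2 := by simp [cs, cf]
      rw [this]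
      norm_num
    have h1 : (1 : ℝ) ≤ ((cf σ (1 + 1)).1 : ℝ) := by exact_mod_cast fst_pos hσ 1
    rw [h0]
    apply div_le_div_of_nonneg_left (hBpos L).le (by norm_num)
    linarith
  · intro i hi hiL
    have h3 := hBpos i
    have h4 := hSpos i
    have h5 := hBpos (i + 1)
    have h6 := hSpos (i + 1)
    have h7 := hBpos L
    have h8 : 8 * (σ : ℝ) * cs σ i * (cf σ (i + 1)).1 ≤ (cf σ (i + 2)).1 := by
      exact_mod_cast fst_step (σ := σ) i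
    constructor
    · have h9 : (cf σ (i + 2)).1 ≤ cs σ (i + 2) / 2 := by
        have := fst_le_snd (σ := σ) (i + 2)
        rw [cs]
        omega
      have h10 : ((cf σ (i + 2)).1 : ℝ) ≤ ((cs σ (i + 2) / 2 : ℕ) : ℝ) := by exact_mod_cast h9
      change (σ : ℝ) * ((cf σ (L + 1)).1 : ℝ) ≤ ((cs σ (i + 1 + 1) / 2 : ℕ) : ℝ) *
        (((cf σ (L + 1)).1 : ℝ) / (4 * (cf σ (i + 1)).1 * cs σ i) / 2)
      calc (σ : ℝ) * ((cf σ (L + 1)).1 : ℝ) = (8 * (σ : ℝ) * cs σ i * (cf σ (i + 1)).1) *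
            (((cf σ (L + 1)).1 : ℝ) / (4 * (cf σ (i + 1)).1 * cs σ i) / 2) := by
              field_simp
              ring
        _ ≤ _ := by
              refine mul_le_mul_of_nonneg_right (h8.trans h10) (by positivity)
    · change ((cf σ (L + 1)).1 : ℝ) / (4 * (cf σ (i + 1 + 1)).1 * cs σ (i + 1)) ≤
        ((cf σ (L + 1)).1 : ℝ) / (4 * (cf σ (i + 1)).1 * cs σ i) / 4
      rw [div_div]
      apply div_le_div_of_nonneg_left h7.le (by positivity)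
      have h11 : (1 : ℝ) ≤ cs σ (i + 1) := by exact_mod_cast cs_pos (σ := σ) (i + 1)
      have h12 : 4 * ((cf σ (i + 1)).1 : ℝ) * cs σ i * 4 ≤ 4 * (cf σ (i + 2)).1 := by
        have h13 : (cs σ i : ℝ) * (cf σ (i + 1)).1 ≤ (σ : ℝ) * (cs σ i * (cf σ (i + 1)).1) :=
          le_mul_of_one_le_left (by positivity) hσ'
        nlinarith
      calc 4 * ((cf σ (i + 1)).1 : ℝ) * cs σ i * 4 ≤ 4 * (cf σ (i + 2)).1 := h12
        _ ≤ 4 * (cf σ (i + 2)).1 * cs σ (i + 1) := le_mul_of_one_le_right (by positivity) h11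
  · change ((cf σ (L + 1)).1 : ℝ) / (4 * (cf σ (L + 1)).1 * cs σ L) = _
    have h3 := hBpos L
    have h4 := hSpos L
    field_simp
  · rw [hfib, pow_add]
    have h1 := cs_le hσ L
    have h2 := cs_le hσ (L + 1)
    have h3 : (cf σ (L + 1)).2 ≤ cs σ (L + 1) := Nat.le_add_left _ _
    calc cs σ L * (cf σ (L + 1)).2 ≤ (2 * (18 * σ) ^ (Nat.fib (L + 1) - 1)) *
          (2 * (18 * σ) ^ (Nat.fib (L + 1 + 1) - 1)) := Nat.mul_le_mul h1 (h3.trans h2)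
      _ = _ := by ring
  · rw [hfib, pow_add]
    have h1 := le_cs (σ := σ) L
    have h2 := le_cs (σ := σ) (L + 1)
    have h3 : cs σ (L + 1) ≤ 3 * (cf σ (L + 1)).1 := by
      have := snd_le hσ L
      rw [cs]
      omega
    calc (8 * σ) ^ (Nat.fib (L + 1) - 1) * (8 * σ) ^ (Nat.fib (L + 2) - 1) ≤
          cs σ L * (3 * (cf σ (L + 1)).1) := Nat.mul_le_mul h1 (h2.trans h3)
      _ = 3 * (cs σ L * (cf σ (L + 1)).1) := by ring

end Pool.Helper98.CD
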